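import Pool.Agent.U4.UH.Prd

/-!
# The zeros of all the Artin L-functions of an abelian field: every value occurs once after many differentiations

Let `F/ℚ` be an abelian field, `G` its group of Dirichlet characters, `m = [F : ℚ] = card G`, and
`Λ_F(s) = ∏_{χ ∈ G} Λ(s, χ*)` the product of the completed L-functions of the primitive characters `χ*` inducing the
`χ` in `G`, i.e. of all irreducible characters of `Gal(F/ℚ)` (with the factor `s (s - 1)` for the trivial one); it is
the completed zeta function of `F`. The multiset `Γ_F` consists of the positive ordinates of the zeros of `Λ_F` on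
`Re s = 1/2`. If `Γ_F` is linearly independent, then every value occurs in it exactly once, i.e. the zeros of `Λ_F` on
the line are simple; the central zeros are the subject of the other two statements. With the Riemann hypothesis the
same then holds for all derivatives of `Λ_F`, whose zeros interlace.

We prove unconditionally, and uniformly in the field `F`, for the `n`-th derivative of `Λ_F` at the heights `y` with
`|disc F| (1 + |y|)^m ≤ exp (κ n)`, for every `κ < 4` and all `n ≥ M(κ) m`: there all zeros are on the line, every value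
occurs exactly once (for `y = 0`: the order of the central zero is at most one), and the values are equally
spaced: the distance to the next one is `(1 + o(1)) 2 π / log (|disc F| (n / m + |y|)^m)` as `n / m → ∞`, uniformly in
`F`, `n` and `y`, without any exception. More generally this holds for the product of the completed L-functions of
ANY `m` primitive Dirichlet characters, with any repetitions (all direct sums of one-dimensional Artin
representations of `Gal(ℚ)`), for example for all the powers of the Riemann xi function. For `m > 1` the derivatives of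
a product are not products. The simplicity for single L-functions is the starting result
`MP_77948b_nt.HighDerivatives`; nothing was known about the distances for `m > 1`.

Proof: modules `Pool.Agent.U4.UH` (`main_gap`, uniform in all L-functions of the class `Pool.Agent.W355.UN.UL`, which is
closed under products): on the line the `n`-th derivative is twice the real part of a half Cauchy integral, whose phase
rotates at the rate of the logarithmic derivative of the gamma factor at the saddle point.
-/

set_option autoImplicit false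

open Complex

namespace Pool.Agent.Results.MP_347b49_nt.AbelianDerivatives

/-- The completed L-function of a primitive character `χ` modulo `q`: `q^(s/2) Λ(s, χ)` with Mathlib's
`Λ(s, χ) = π^(-(s+a)/2) Γ((s+a)/2) L(s, χ)`, `a = 0` or `1`, `χ(-1) = (-1)^a`; for `q = 1` it is the entire
function `s (s-1) π^(-s/2) Γ(s/2) ζ(s) = 2 ξ(s)`. -/
noncomputable def Lam {q : ℕ} [NeZero q] (χ : DirichletCharacter ℂ q) (s : ℂ) : ℂ :=
  if q = 1 then s * (s - 1) * completedRiemannZeta₀ s + 1
  else (q : ℂ) ^ (s / 2) * DirichletCharacter.completedLFunction χ s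

/-- The completed L-function of the primitive character which induces `χ`. -/
noncomputable def LamPrim {M : ℕ} [NeZero M] (χ : DirichletCharacter ℂ M) (s : ℂ) : ℂ :=
  haveI : NeZero χ.conductor := ⟨χ.conductor_ne_zero⟩
  Lam χ.primitiveCharacter s

/-- `Λ_F` for the abelian field `F` with the group `G` of Dirichlet characters. -/
noncomputable def LamField {M : ℕ} [NeZero M] (G : Subgroup (DirichletCharacter ℂ M)) [Fintype G] (s : ℂ) : ℂ :=
  ∏ χ : G, LamPrim (χ : DirichletCharacter ℂ M) s

/-- `|disc F|` for the abelian field `F` with the group `G` of Dirichlet characters: the product of the conductors. -/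
noncomputable def disc {M : ℕ} [NeZero M] (G : Subgroup (DirichletCharacter ℂ M)) [Fintype G] : ℝ :=
  ∏ χ : G, ((χ : DirichletCharacter ℂ M).conductor : ℝ)

/-- At all heights `y` with `D (1 + |y|)^m ≤ exp (κ n)` the zeros of the `n`-th derivative of `Λ` are on the line
`Re s = 1/2`, every value occurs exactly once, and the values are equally spaced, with the distance
`2 π / log (D (n / m + |y|)^m)` up to a factor between `1 - ε` and `1 + ε`. -/
structure EquallySpaced (κ ε : ℝ) (m : ℕ) (D : ℝ) (Λ : ℂ → ℂ) (n : ℕ) : Prop where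
  /-- every zero is simple and on the line -/
  zeros : ∀ s : ℂ, Real.log (D * (1 + |s.im|) ^ m) ≤ κ * n → iteratedDeriv n Λ s = 0 →
    s.re = 1 / 2 ∧ iteratedDeriv (n + 1) Λ s ≠ 0
  /-- there is a zero on the line at or above `y`, at most `1 + ε` mean distances away -/
  next : ∀ y : ℝ, Real.log (D * (1 + |y|) ^ m) ≤ κ * n → ∃ y' : ℝ, y ≤ y' ∧
    (y' - y) * Real.log (D * (n / m + |y|) ^ m) / (2 * Real.pi) ≤ 1 + ε ∧
      iteratedDeriv n Λ (1 / 2 + y' * I) = 0
  /-- the next zero above a zero is at the mean distance, up to a factor between `1 - ε` and `1 + ε` -/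
  gap : ∀ y : ℝ, Real.log (D * (1 + |y|) ^ m) ≤ κ * n → iteratedDeriv n Λ (1 / 2 + y * I) = 0 →
    ∃ y' : ℝ, y < y' ∧ iteratedDeriv n Λ (1 / 2 + y' * I) = 0 ∧
      (∀ v : ℝ, y < v → v < y' → iteratedDeriv n Λ (1 / 2 + v * I) ≠ 0) ∧
      |(y' - y) * Real.log (D * (n / m + |y|) ^ m) / (2 * Real.pi) - 1| ≤ ε

lemma lam_eq {q : ℕ} [NeZero q] (χ : DirichletCharacter ℂ q) : Lam χ = Pool.Agent.U4.UH.LamQ χ := rfl

/-- for any finite family of primitive characters -/
theorem family (κ ε : ℝ) (hκ : κ < 4) (hε : 0 < ε) : ∃ M₀ : ℝ, 1 ≤ M₀ ∧ ∀ (m : ℕ), 1 ≤ m → ∀ (q : Fin m → ℕ)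
    [∀ i, NeZero (q i)] (χ : ∀ i, DirichletCharacter ℂ (q i)), (∀ i, (χ i).IsPrimitive) →
      ∀ n : ℕ, M₀ * m ≤ n → EquallySpaced κ ε m (∏ i, (q i : ℝ)) (fun s => ∏ i, Lam (χ i) s) n := by
  obtain ⟨M, hM, H⟩ := Pool.Agent.U4.UH.prod_eqsp hκ hε
  refine ⟨M, hM, ?_⟩
  intro m hm q _ χ hχ n hn
  obtain ⟨k, rfl⟩ : ∃ k, m = k + 1 := ⟨m - 1, by omega⟩
  obtain ⟨h1, h2, h3⟩ := H k q χ hχ n hn
  exact ⟨h1, h2, h3⟩

lemma field_of {κ ε M₀ : ℝ} (H : ∀ (m : ℕ), 1 ≤ m → ∀ (q : Fin m → ℕ) [∀ i, NeZero (q i)]
    (χ : ∀ i, DirichletCharacter ℂ (q i)), (∀ i, (χ i).IsPrimitive) → ∀ n : ℕ, M₀ * m ≤ n →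
      EquallySpaced κ ε m (∏ i, (q i : ℝ)) (fun s => ∏ i, Lam (χ i) s) n)
    {M : ℕ} [NeZero M] (G : Subgroup (DirichletCharacter ℂ M)) [Fintype G] (n : ℕ) (hn : M₀ * Fintype.card G ≤ n) :
    EquallySpaced κ ε (Fintype.card G) (disc G) (LamField G) n := by
  let e := Fintype.equivFin G
  let q : Fin (Fintype.card G) → ℕ := fun i => ((e.symm i : G) : DirichletCharacter ℂ M).conductor
  have : ∀ i, NeZero (q i) := fun i => ⟨DirichletCharacter.conductor_ne_zero _⟩
  let χ : ∀ i, DirichletCharacter ℂ (q i) := fun i => ((e.symm i : G) : DirichletCharacter ℂ M).primitiveCharacter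
  have h := H (Fintype.card G) Fintype.card_pos q χ
    (fun i => DirichletCharacter.primitiveCharacter_isPrimitive _) n hn
  have e1 : (∏ i, (q i : ℝ)) = disc G :=
    Equiv.prod_comp e.symm fun χ : G => ((χ : DirichletCharacter ℂ M).conductor : ℝ)
  have e2 : (fun s => ∏ i, Lam (χ i) s) = LamField G := by
    funext s
    exact Equiv.prod_comp e.symm fun χ : G => LamPrim (χ : DirichletCharacter ℂ M) s
  rw [e1, e2] at h
  exact h

lemma one_le_disc {M : ℕ} [NeZero M] (G : Subgroup (DirichletCharacter ℂ M)) [Fintype G] : 1 ≤ disc G := by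
  unfold disc
  have h : ∀ χ : G, (1 : ℝ) ≤ ((χ : DirichletCharacter ℂ M).conductor : ℝ) := fun χ => by
    exact_mod_cast Nat.one_le_iff_ne_zero.2 (DirichletCharacter.conductor_ne_zero _)
  calc (1 : ℝ) = ∏ _χ : G, (1 : ℝ) := by simp
    _ ≤ _ := Finset.prod_le_prod (fun _ _ => zero_le_one) fun χ _ => h χ

lemma lamField_diff {M : ℕ} [NeZero M] (G : Subgroup (DirichletCharacter ℂ M)) [Fintype G] :
    Differentiable ℂ (LamField G) := by
  have h : ∀ χ : G, Differentiable ℂ (LamPrim (χ : DirichletCharacter ℂ M)) := by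
    intro χ
    have : NeZero (χ : DirichletCharacter ℂ M).conductor := ⟨DirichletCharacter.conductor_ne_zero _⟩
    obtain ⟨a, L, -, hL⟩ := Pool.Agent.U4.UH.all_ul (χ : DirichletCharacter ℂ M).conductor
      (χ : DirichletCharacter ℂ M).primitiveCharacter (DirichletCharacter.primitiveCharacter_isPrimitive _)
    exact hL.slow.1
  have e : LamField G = fun s => ∏ χ : G, LamPrim (χ : DirichletCharacter ℂ M) s := rfl
  rw [e]
  exact Differentiable.fun_finsetProd fun χ _ => h χ

lemma order_le_one {f : ℂ → ℂ} {z : ℂ} (hf : AnalyticAt ℂ f z) (h : deriv f z ≠ 0) : analyticOrderAt f z ≤ 1 := by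
  by_contra hc
  push Not at hc
  apply h
  have h2 : (2 : ℕ∞) ≤ analyticOrderAt f z := by
    have h3 : (1 : ℕ∞) + 1 ≤ analyticOrderAt f z := Order.add_one_le_of_lt hc
    rwa [one_add_one_eq_two] at h3
  obtain ⟨g, hg, hfg⟩ := (natCast_le_analyticOrderAt hf (n := 2)).1 (by exact_mod_cast h2)
  have h3 : f =ᶠ[nhds z] fun w => (w - z) ^ 2 * g w := by
    filter_upwards [hfg] with w hw
    rw [hw, smul_eq_mul]
  rw [h3.deriv_eq]
  have h4 : HasDerivAt (fun w : ℂ => (w - z) ^ 2) (((2 : ℕ) : ℂ) * (z - z) ^ (2 - 1) * 1) z :=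
    ((hasDerivAt_id z).sub_const z).pow 2
  have h5 : HasDerivAt (fun w : ℂ => (w - z) ^ 2 * g w) _ z := h4.mul hg.differentiableAt.hasDerivAt
  rw [h5.deriv]
  simp

/-- **Main theorem.** For all `κ < 4` and `ε > 0` there is `M₀` such that

* for all `m ≥ 1`, all primitive Dirichlet characters `χ_1, …, χ_m` (repetitions allowed) of conductors
  `q_1, …, q_m ≥ 1` and all `n ≥ M₀ m` the zeros of the `n`-th derivative of `∏ Λ(s, χ_i)` at the heights `y` with
  `q_1 ⋯ q_m (1 + |y|)^m ≤ exp (κ n)` are on the line, simple and equally spaced (`EquallySpaced`);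
* in particular this holds for `Λ_F`, for all abelian fields `F` and all `n ≥ M₀ [F : ℚ]`;
* the order of vanishing of the `n`-th derivative of `Λ_F` at the central point `1/2` is at most one, for all abelian
  fields `F` and all `n ≥ M₀ [F : ℚ]` with `|disc F| ≤ exp (κ n)`. -/
theorem result : ∀ κ ε : ℝ, κ < 4 → 0 < ε → ∃ M₀ : ℝ, 1 ≤ M₀ ∧
    (∀ (m : ℕ), 1 ≤ m → ∀ (q : Fin m → ℕ) [∀ i, NeZero (q i)] (χ : ∀ i, DirichletCharacter ℂ (q i)),
      (∀ i, (χ i).IsPrimitive) → ∀ n : ℕ, M₀ * m ≤ n →
        EquallySpaced κ ε m (∏ i, (q i : ℝ)) (fun s => ∏ i, Lam (χ i) s) n) ∧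
    (∀ (M : ℕ) [NeZero M] (G : Subgroup (DirichletCharacter ℂ M)) [Fintype G] (n : ℕ),
      M₀ * Fintype.card G ≤ n → EquallySpaced κ ε (Fintype.card G) (disc G) (LamField G) n) ∧
    (∀ (M : ℕ) [NeZero M] (G : Subgroup (DirichletCharacter ℂ M)) [Fintype G] (n : ℕ),
      M₀ * Fintype.card G ≤ n → disc G ≤ Real.exp (κ * n) →
        analyticOrderNatAt (iteratedDeriv n (LamField G)) (1 / 2) ≤ 1) := by
  intro κ ε hκ hε
  obtain ⟨M₀, hM₀, H⟩ := family κ ε hκ hε
  refine ⟨M₀, hM₀, H, fun M _ G _ n hn => field_of H G n hn, ?_⟩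
  intro M _ G _ n hn hd
  have h := field_of H G n hn
  have hd1 : 1 ≤ disc G := one_le_disc G
  have h1 : Real.log (disc G * (1 + |((1 / 2 : ℂ)).im|) ^ (Fintype.card G)) ≤ κ * n := by
    have e : ((1 / 2 : ℂ)).im = 0 := by norm_num
    rw [e, abs_zero, add_zero, one_pow, mul_one]
    have := Real.log_le_log (by linarith) hd
    rwa [Real.log_exp] at this
  have hdiff : Differentiable ℂ (LamField G) := lamField_diff G
  have hd2 : Differentiable ℂ (iteratedDeriv n (LamField G)) :=
    (hdiff.contDiff (n := ⊤)).differentiable_iteratedDeriv n (by exact_mod_cast WithTop.coe_lt_top _)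
  have han : AnalyticAt ℂ (iteratedDeriv n (LamField G)) (1 / 2) := hd2.analyticAt _
  by_cases h0 : iteratedDeriv n (LamField G) (1 / 2) = 0
  · have h2 := (h.zeros (1 / 2) h1 h0).2
    rw [iteratedDeriv_succ] at h2
    have h3 : analyticOrderAt (iteratedDeriv n (LamField G)) (1 / 2) ≤ 1 := order_le_one han h2
    unfold analyticOrderNatAt
    exact ENat.toNat_le_of_le_natCast (by exact_mod_cast h3)
  · have h3 : analyticOrderAt (iteratedDeriv n (LamField G)) (1 / 2) = 0 := han.analyticOrderAt_eq_zero.2 h0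
    unfold analyticOrderNatAt
    rw [h3]
    simp

end Pool.Agent.Results.MP_347b49_nt.AbelianDerivatives
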