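import Mathlib
import Pool.Agent.U398.Art.Fin

/-!
# Central values of Artin L-functions: groups with orthogonal characters, alternating and symmetric groups

Statement 2 of the question says that `L(1/2, χ) ≠ 0` for all orthogonal `χ ≠ 1`. Here it is proved (with the
holomorphy at `1/2`, which is open as well) for the `χ` of degree at least three of a group with orthogonal
characters only if the Dedekind zeta function of the field has order at most five at `1/2`, and for the
characters `χ` nontrivial on `A_n` of `A_n ≤ G ≤ S_n` if the order is less than `2 (2 ^ k - 1) ⌊n / 2 ^ k⌋`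
for some `k ≥ 2`.

`Pool.Agent.H541R3.ART.Irr G` is the set of irreducible complex characters of the finite group `G`.

`Pool.Agent.H541R3.ART.ArtinData G s₀` is a family of functions with the formal properties of the
Artin L-functions of a Galois extension `E/K` with group `G` near a point `s₀ ≠ 1`: functions
`L χ` for the irreducible characters `χ` of `G` and `Lin H ψ` for the linear characters `ψ` of the
subgroups `H`, such that `L χ` is meromorphic and not identically zero near `s₀` (Brauer), `Lin H ψ`
has no pole at `s₀` (Artin reciprocity and Hecke), and `Lin H ψ` is the product of the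
`L χ ^ ⟨χ|_H, ψ⟩` (induction). In particular `Lin ⊥ 1` stands for the Dedekind zeta function of `E`.

`Pool.Agent.U398.Art.ind χ` is the Frobenius–Schur indicator, the mean of `χ (g ^ 2)`. It is `1`
if and only if the irreducible character `χ` is orthogonal (afforded by a real representation).

`Pool.Agent.U398.Art.Central A` lists the facts at the central point `s₀ = 1 / 2` which come from
the functional equation `Λ (s, χ) = W (χ) Λ (1 - s, χ̄)`: dual characters have the same order;
`L χ` has even order if `χ` is orthogonal, because `W (χ) = 1` (Fröhlich and Queyranne); and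
`Lin H ψ` has even order if `ψ ^ 2 = 1` (Hecke).

Proof of (1). Let `θ` be the class function with multiplicities half the orders at `1 / 2`; its
degree is at most two, and its restriction to every subgroup has nonnegative multiplicities against
all linear characters. Let its degree be two; then `D(g) = (θ(g) ^ 2 - θ(g ^ 2)) / 2` is a linear
character. If `D ≠ 1`, the theorem of Frobenius and Schur gives that the sum of the `n ^ 2 - n` over
the multiplicities `n` of `θ` vanishes. If `D = 1`, then `θ` restricts to no subgroup as the inflation
of the quaternion character, since a symplectic irreducible character of a subgroup has even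
multiplicity in every orthogonal character of `G`; by transfer and the fusion theorem of Alperin
`θ` is a sum of two linear characters or has norm one.
-/

set_option autoImplicit false

open Pool.Agent.H541R3.ART Pool.Agent.U398.Art Equiv

/-- The bounds for the order of the zeta function double at the central point. Let `E/K` be Galois
with group `G` and let `r` be the order at `1 / 2` of the Dedekind zeta function of `E`.

(1) Let all irreducible characters of `G` be orthogonal (for example `G` a Weyl group). If `r ≤ 5`,
then all L-functions are holomorphic at `1 / 2`, and they do not vanish there if `χ(1) ≥ 3`.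
(2) Let `A_n ≤ G ≤ S_n`, `n ≥ 5`, and `r < 2 (2 ^ k - 1) ⌊n / 2 ^ k⌋` for some `k ≥ 2`. Then all
L-functions are holomorphic at `1 / 2`, and they do not vanish there unless `χ` is trivial on
`A_n`.
(3) Let all irreducible characters of `G` be orthogonal. Then half the orders at `1 / 2` are the
orders at `1 / 2` of a family with the same formal properties; so every theorem which deduces the
holomorphy from these properties and `r ≤ R` holds at `1 / 2` with `r ≤ 2 R + 1` instead. -/
theorem Pool.Agent.Results.MP_347b49_nt.CentralOrthogonal.result :
    (∀ (G : Type) [Group G] [Finite G] (A : ArtinData G (1 / 2)), Central A → ∀ r : ℕ,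
      meromorphicOrderAt (A.Lin ⊥ 1) (1 / 2) = (r : WithTop ℤ) → r ≤ 5 →
      (∀ χ ∈ Irr G, ind χ = 1) → ∀ χ ∈ Irr G,
        0 ≤ meromorphicOrderAt (A.L χ) (1 / 2) ∧
        (meromorphicOrderAt (A.L χ) (1 / 2) ≠ 0 → χ 1 = 1 ∨ χ 1 = 2)) ∧
    (∀ (n k : ℕ), 5 ≤ n → 2 ≤ k → ∀ G : Subgroup (Perm (Fin n)), alternatingGroup (Fin n) ≤ G →
      ∀ A : ArtinData G (1 / 2), Central A → ∀ r : ℕ,
      meromorphicOrderAt (A.Lin ⊥ 1) (1 / 2) = (r : WithTop ℤ) →
      r < 2 * ((2 ^ k - 1) * (n / 2 ^ k)) → ∀ χ ∈ Irr G,
        0 ≤ meromorphicOrderAt (A.L χ) (1 / 2) ∧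
        ((∃ g : G, (g : Perm (Fin n)) ∈ alternatingGroup (Fin n) ∧ χ g ≠ χ 1) →
          meromorphicOrderAt (A.L χ) (1 / 2) = 0)) ∧
    (∀ (G : Type) [Group G] [Finite G] (A : ArtinData G (1 / 2)), Central A →
      (∀ χ ∈ Irr G, ind χ = 1) → ∃ B : ArtinData G (1 / 2),
        (∀ χ ∈ Irr G, ∃ k : ℤ, meromorphicOrderAt (B.L χ) (1 / 2) = (k : WithTop ℤ) ∧
          meromorphicOrderAt (A.L χ) (1 / 2) = ((2 * k : ℤ) : WithTop ℤ)) ∧
        ∀ (H : Subgroup G) (ψ : H →* ℂˣ), ∃ k : ℤ,
          meromorphicOrderAt (B.Lin H ψ) (1 / 2) = (k : WithTop ℤ) ∧
          meromorphicOrderAt (A.Lin H ψ) (1 / 2) = ((2 * k : ℤ) : WithTop ℤ)) := by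
  refine ⟨?_, ?_, ?_⟩
  · intro G _ _ A hA r hr h5 horth
    exact central_orth A hA horth hr h5
  · intro n k hn hk G hG A hA r hr hlt χ hχ
    exact artin_sym_even hn hk G hG A hA hr hlt χ hχ
  · intro G _ _ A hA horth
    exact exists_half A fun χ hχ => hA.orth χ hχ (horth χ hχ)
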