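import Pool.Agent.U349.EV.ArtEV
import Pool.Agent.U544.LI.Rat

/-!
# Linear independence, central values and two extreme values of a sum over prime ideals

Let `F/ℚ` be a finite Galois extension with group `G` for which Artin's conjecture holds (all `L(s, χ, F/ℚ)`,
`χ ∈ Irr(G)`, are analytic for `s ≠ 1`; this is known if `G` is supersolvable), and let

`D_F(x) = (8/3) √x - ∑_𝔞 Λ(𝔞) N𝔞^(-1/2) min(N𝔞/x, x/N𝔞)`,

the sum over the ideals of `F`, `Λ(𝔭^k) = log N𝔭` and `Λ(𝔞) = 0` for all other ideals: a smoothed error term in the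
count of the prime ideals. Let `|Γ_F|` be the set of the members of the multiset `Γ_F` of the question, each taken once,
`d_γ` the least degree `χ(1)` of the `χ` with `L(1/2 + iγ, χ) = 0`, `s_F` the sum of `χ(1) ord_{s=1/2} L(s, χ)` over the
symplectic `χ ∈ Irr(G)` (`s_F = 0` if there are none), and

`A = 2 s_F + ∑_{γ ∈ |Γ_F|} 4 d_γ / (1 + γ²)`,   `B(c) = 6 s_F + ∑_{γ ∈ |Γ_F|} 4 d_γ |1 + 2 c^{iγ}| / (1 + γ²)`.

We prove:

* the Riemann hypothesis for all the `L(s, χ, F/ℚ)` and the statement 2 of the question (`L(1/2, χ) ≠ 0` for the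
  unitary and orthogonal `χ ≠ χ_0`) hold for `F` and no value occurs twice in `Γ_F`, if and only if `limsup D_F ≤ A`;
* for every `c > 1` outside a countable set: the Riemann hypothesis for all the `L(s, χ, F/ℚ)` and the statements 1 and 2
  of the question hold for `F` if and only if `limsup D_F ≤ A` and `limsup |D_F(x) + 2 D_F(c x)| ≥ B(c)`;
* if there are no symplectic `χ` (all `χ` are orthogonal or unitary, e.g. `G` abelian, dihedral, symmetric), then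
  statement 3 is void, and so all the statements of the question, with the Riemann hypothesis, are equivalent to
  `limsup D_F ≤ ∑_{γ ∈ |Γ_F|} 4 d_γ / (1 + γ²)` and
  `limsup |D_F(x) + 2 D_F(c x)| ≥ ∑_{γ ∈ |Γ_F|} 4 d_γ |1 + 2 c^{iγ}| / (1 + γ²)`;
* if the Riemann hypothesis holds for all the `L(s, χ, F/ℚ)`, then
  `limsup D_F = 2 ∑_χ χ(1) ord_{s=1/2} L(s, χ) + ∑_{γ ∈ Γ_F} 4 χ(1) / (1 + γ²)` (the sum over the multiset), and
  conversely if `D_F` is bounded above.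

A central zero of a unitary or orthogonal `χ`, a multiple zero or a common zero makes the first extreme value too large,
a linear relation makes the second one too small.

Proof. See `MP_0ec205_nt/ExtremeValues` and `Pool.Agent.U544.LI` for the explicit formula with positive residues, for
the Landau step and for the factorization of `ζ_F`; `ζ(1/2) ≠ 0`.
-/

set_option autoImplicit false

open Filter Topology NumberField IsDedekindDomain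
open scoped Nat Pointwise

namespace Pool.Agent.Results.MP_347b49_nt.ExtremeCentralValues

/-- `limsup_{x → ∞} W(x) ≤ v` -/
def LimsupLe (W : ℝ → ℝ) (v : ℝ) : Prop := ∀ ε : ℝ, 0 < ε → ∀ᶠ x in atTop, W x < v + ε

/-- `limsup_{x → ∞} W(x) ≥ v` -/
def LimsupGe (W : ℝ → ℝ) (v : ℝ) : Prop := ∀ ε : ℝ, 0 < ε → ∃ᶠ x in atTop, v - ε < W x

/-! ### the prime ideals -/

section field

variable (E : Type) [Field E] [NumberField E]

variable {E} in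
open Classical in
/-- the von Mangoldt function of an ideal: `log N𝔭` for `𝔭^k`, `k ≥ 1`, and `0` otherwise -/
noncomputable def Lam (𝔞 : Ideal (𝓞 E)) : ℝ := if IsPrimePow 𝔞 then Real.log (Ideal.absNorm 𝔞.radical) else 0

/-- `D_E(x) = (8/3) √x - ∑_𝔞 Λ(𝔞) N𝔞^(-1/2) min(N𝔞/x, x/N𝔞)` -/
noncomputable def D (x : ℝ) : ℝ :=
  8 / 3 * √x - ∑' 𝔞 : Ideal (𝓞 E), Lam 𝔞 / √(Ideal.absNorm 𝔞) * min (Ideal.absNorm 𝔞 / x) (x / Ideal.absNorm 𝔞)

end field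

/-! ### Artin L-functions -/

/-- the irreducible complex characters of `G` -/
def Irr (G : Type) [Group G] : Set (G → ℂ) :=
  {χ | ∃ (n : ℕ) (ρ : Representation ℂ G (Fin n → ℂ)), ρ.IsIrreducible ∧ χ = ρ.character}

section artin

variable (F : Type) [Field F] [NumberField F]

/-- the pairs `(P, g)`, where `P` is a prime of `F` over the prime `p` of `ℚ` and `g` induces `x ↦ x ^ (N(p)^n)`
modulo `P` -/
def frobSet (p : Ideal (𝓞 ℚ)) (n : ℕ) : Set (Ideal (𝓞 F) × (F ≃ₐ[ℚ] F)) :=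
  {x | x.1.IsPrime ∧ x.1.LiesOver p ∧ ∀ y : 𝓞 F, x.2 • y - y ^ (Ideal.absNorm p ^ n) ∈ x.1}

variable {F} in
/-- `χ(p^n)`: the mean of `χ` over the elements which induce `x ↦ x ^ (N(p)^n)` modulo a prime over `p` -/
noncomputable def frobMean (χ : (F ≃ₐ[ℚ] F) → ℂ) (p : Ideal (𝓞 ℚ)) (n : ℕ) : ℂ :=
  (∑ᶠ x ∈ frobSet F p n, χ x.2) / (frobSet F p n).ncard

variable {F} in
/-- the term `χ(p^n) / (n p^(ns))` of `log L(s, χ)` -/
noncomputable def logTerm (χ : (F ≃ₐ[ℚ] F) → ℂ) (s : ℂ) (x : HeightOneSpectrum (𝓞 ℚ) × ℕ+) : ℂ :=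
  frobMean χ x.1.asIdeal x.2 / ((x.2 : ℕ) * (Ideal.absNorm x.1.asIdeal : ℂ) ^ (((x.2 : ℕ) : ℂ) * s))

variable {F} in
/-- `Λ` is the Artin L-function `L(s, χ, F/ℚ) = exp ∑ χ(p^n) / (n p^(ns))`, and it is analytic for all `s ≠ 1` -/
def IsArtinL (χ : (F ≃ₐ[ℚ] F) → ℂ) (Λ : ℂ → ℂ) : Prop :=
  (∀ s : ℂ, s ≠ 1 → AnalyticAt ℂ Λ s) ∧
    ∀ s : ℂ, 1 < s.re → ∃ l : ℂ, HasSum (logTerm χ s) l ∧ Λ s = Complex.exp l

variable (L : ((F ≃ₐ[ℚ] F) → ℂ) → ℂ → ℂ)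

/-- the multiset `Γ_F`: its members are the triples `(χ, γ, j)` with `χ ∈ Irr(G)`, `γ > 0` and
`j < ord_{s = 1/2 + iγ} L(s, χ)` -/
def Gamma : Type :=
  {p : (((F ≃ₐ[ℚ] F) → ℂ) × ℝ) × ℕ // p.1.1 ∈ Irr (F ≃ₐ[ℚ] F) ∧ 0 < p.1.2 ∧
    p.2 < analyticOrderNatAt (L p.1.1) (1 / 2 + p.1.2 * Complex.I)}

variable {F L} in
/-- the ordinate `γ` -/
def ordinate (p : Gamma F L) : ℝ := p.1.1.2

/-- `∑_χ χ(1) ord_{s=1/2} L(s, χ)` -/
noncomputable def central : ℝ := ∑ᶠ χ ∈ Irr (F ≃ₐ[ℚ] F), (χ 1).re * analyticOrderNatAt (L χ) (1 / 2)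

/-- `|Γ_F|`, the set of the different ordinates -/
def GammaSet : Type := {g : ℝ // 0 < g ∧ ∃ χ ∈ Irr (F ≃ₐ[ℚ] F), L χ (1 / 2 + g * Complex.I) = 0}

/-- `d_γ`: the least degree of the `χ ∈ Irr(G)` with `L(1/2 + iγ, χ) = 0` -/
noncomputable def deg (g : ℝ) : ℕ :=
  sInf {n : ℕ | ∃ χ ∈ Irr (F ≃ₐ[ℚ] F), L χ (1 / 2 + g * Complex.I) = 0 ∧ χ 1 = n}

end artin


/-! ### the question -/

section question

variable (F : Type) [Field F] [NumberField F]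

/-- the Frobenius-Schur indicator `(1/|G|) ∑_g χ(g²)` -/
noncomputable def indicator {G : Type} [Group G] (χ : G → ℂ) : ℂ := (∑ᶠ g : G, χ (g * g)) / Nat.card G

/-- the symplectic irreducible characters -/
def Sympl (G : Type) [Group G] : Set (G → ℂ) := {χ | χ ∈ Irr G ∧ indicator χ = -1}

/-- the Riemann hypothesis for all the `L(s, χ)`, `χ ∈ Irr(G)` -/
def GRH (L : ((F ≃ₐ[ℚ] F) → ℂ) → ℂ → ℂ) : Prop := ∀ χ ∈ Irr (F ≃ₐ[ℚ] F), ∀ ρ : ℂ, 0 < ρ.re → ρ.re < 1 →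
  L χ ρ = 0 → ρ.re = 1 / 2

/-- statement 1: `Γ_F` is linearly independent over `ℚ` -/
def Statement1 (L : ((F ≃ₐ[ℚ] F) → ℂ) → ℂ → ℂ) : Prop := LinearIndependent ℚ (ordinate (F := F) (L := L))

/-- statement 2: `L(1/2, χ) ≠ 0` for all `χ ≠ 1` in `Irr(G)` which are not symplectic -/
def Statement2 (L : ((F ≃ₐ[ℚ] F) → ℂ) → ℂ → ℂ) : Prop := ∀ χ ∈ Irr (F ≃ₐ[ℚ] F), χ ≠ (fun _ => 1) →
  χ ∉ Sympl (F ≃ₐ[ℚ] F) → L χ (1 / 2) ≠ 0

/-- statement 3: `ord_{s=1/2} L(s, χ) ≤ M₀` for the symplectic `χ` -/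
def Statement3 (L : ((F ≃ₐ[ℚ] F) → ℂ) → ℂ → ℂ) (M₀ : ℕ) : Prop :=
  ∀ χ ∈ Sympl (F ≃ₐ[ℚ] F), analyticOrderNatAt (L χ) (1 / 2) ≤ M₀

/-- `s_F`: the sum of `χ(1) ord_{s=1/2} L(s, χ)` over the symplectic `χ` -/
noncomputable def sympl (L : ((F ≃ₐ[ℚ] F) → ℂ) → ℂ → ℂ) : ℝ :=
  ∑ᶠ χ ∈ Sympl (F ≃ₐ[ℚ] F), (χ 1).re * analyticOrderNatAt (L χ) (1 / 2)

/-- `2 e + ∑_{γ ∈ |Γ_F|} 4 d_γ / (1 + γ²)` -/
noncomputable def A (L : ((F ≃ₐ[ℚ] F) → ℂ) → ℂ → ℂ) (e : ℝ) : ℝ :=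
  2 * e + ∑' g : GammaSet F L, 4 * (deg F L g.1 : ℝ) / (1 + g.1 ^ 2)

/-- `6 e + ∑_{γ ∈ |Γ_F|} 4 d_γ |1 + 2 c^{iγ}| / (1 + γ²)` -/
noncomputable def B (L : ((F ≃ₐ[ℚ] F) → ℂ) → ℂ → ℂ) (e c : ℝ) : ℝ :=
  6 * e + ∑' g : GammaSet F L, 4 * (deg F L g.1 : ℝ) / (1 + g.1 ^ 2) * ‖1 + 2 * (c : ℂ) ^ (g.1 * Complex.I)‖

end question

section parts

variable {F : Type} [Field F] [NumberField F] [IsGalois ℚ F] {L : ((F ≃ₐ[ℚ] F) → ℂ) → ℂ → ℂ}

open Pool.Agent.U544.LI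

open Classical in
/-- the part of `χ` which is not symplectic -/
noncomputable def rest (L : ((F ≃ₐ[ℚ] F) → ℂ) → ℂ → ℂ) (χ : (F ≃ₐ[ℚ] F) → ℂ) : ℕ :=
  if χ ∈ Sympl (F ≃ₐ[ℚ] F) then 0 else analyticOrderNatAt (L χ) (1 / 2)

lemma order_pos (hL : ∀ χ ∈ Irr (F ≃ₐ[ℚ] F), IsArtinL χ (L χ)) {χ : (F ≃ₐ[ℚ] F) → ℂ} (hχ : χ ∈ Irr (F ≃ₐ[ℚ] F)) :
    0 < analyticOrderNatAt (L χ) (1 / 2) ↔ L χ (1 / 2) = 0 := by
  have hZ : IsArt F χ (L χ) := hL χ hχ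
  exact Z_ord_pos (S := {()}) (Z := fun _ => L χ) (χ := ()) (fun _ _ s hs => hZ.1 s hs) (fun _ _ => art_two hZ) (by simp)
    (s := 1 / 2) (by norm_num)

lemma statement_iff (hL : ∀ χ ∈ Irr (F ≃ₐ[ℚ] F), IsArtinL χ (L χ)) :
    Statement2 F L ↔ ∀ χ ∈ Irr (F ≃ₐ[ℚ] F), rest L χ = 0 := by
  constructor
  · intro h2 χ hχ
    unfold rest
    split_ifs with hs
    · rfl
    · by_contra hne
      have h6 := (order_pos hL hχ).1 (Nat.pos_of_ne_zero hne)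
      by_cases h1 : χ = fun _ => 1
      · have hA : IsArt F χ (L χ) := hL χ hχ
        have hA' : IsArt F (fun _ => 1) (L χ) := by
          rw [h1] at hA ⊢
          exact hA
        rw [art_triv hA' (by norm_num)] at h6
        exact zeta_half_ne h6
      · exact h2 χ hχ h1 hs h6
  · intro h χ hχ h1 hs h0
    have h4 := h χ hχ
    have h5 := (order_pos hL hχ).2 h0
    unfold rest at h4
    rw [if_neg hs] at h4
    omega

omit [IsGalois ℚ F] in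
lemma parts_eq : central F L - sympl F L =
    ∑ χ ∈ Pool.Agent.H541R3.ART.irrF (F ≃ₐ[ℚ] F), (dg χ : ℝ) * (rest L χ : ℝ) := by
  classical
  have h1 : central F L = ∑ χ ∈ Pool.Agent.H541R3.ART.irrF (F ≃ₐ[ℚ] F),
      (χ 1).re * analyticOrderNatAt (L χ) (1 / 2) :=
    finsum_mem_eq_finite_toFinset_sum _ (Pool.Agent.H541R3.ART.irr_finite (G := F ≃ₐ[ℚ] F))
  have h2 : sympl F L = ∑ χ ∈ Pool.Agent.H541R3.ART.irrF (F ≃ₐ[ℚ] F),
      (χ 1).re * ((analyticOrderNatAt (L χ) (1 / 2) : ℝ) - (rest L χ : ℝ)) := by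
    have h3 : sympl F L = ∑ᶠ χ ∈ Irr (F ≃ₐ[ℚ] F),
        (χ 1).re * ((analyticOrderNatAt (L χ) (1 / 2) : ℝ) - (rest L χ : ℝ)) := by
      unfold sympl
      refine finsum_congr fun χ => ?_
      by_cases hs : χ ∈ Sympl (F ≃ₐ[ℚ] F)
      · rw [finsum_eq_if, if_pos hs, finsum_eq_if, if_pos hs.1]
        unfold rest
        rw [if_pos hs, Nat.cast_zero, sub_zero]
      · rw [finsum_eq_if, if_neg hs, finsum_eq_if]
        unfold rest
        rw [if_neg hs, sub_self, mul_zero, ite_self]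
    rw [h3]
    exact finsum_mem_eq_finite_toFinset_sum _ (Pool.Agent.H541R3.ART.irr_finite (G := F ≃ₐ[ℚ] F))
  rw [h1, h2, ← Finset.sum_sub_distrib]
  refine Finset.sum_congr rfl fun χ hχ => ?_
  rw [(dg_spec (Pool.Agent.H541R3.ART.mem_irrF.1 hχ)).1, Complex.natCast_re]
  ring

end parts

open Pool.Agent.U544.LI in
lemma deg_eq (F : Type) [Field F] [NumberField F] (L : ((F ≃ₐ[ℚ] F) → ℂ) → ℂ → ℂ) (g : ℝ) :
    deg F L g = Pool.Agent.U349.EV.dmin (fun χ => χ ∈ Pool.Agent.H541R3.ART.Irr (F ≃ₐ[ℚ] F)) L dg g := by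
  unfold deg Pool.Agent.U349.EV.dmin
  congr 1
  ext n
  constructor
  · rintro ⟨χ, h1, h2, h3⟩
    refine ⟨χ, h1, h2, ?_⟩
    have h4 := (dg_spec h1).1
    rw [h3] at h4
    exact_mod_cast h4.symm
  · rintro ⟨χ, h1, h2, h3⟩
    refine ⟨χ, h1, h2, ?_⟩
    rw [(dg_spec h1).1, h3]

open Pool.Agent.U544.LI in
lemma central_eq (F : Type) [Field F] [NumberField F] [IsGalois ℚ F] (L : ((F ≃ₐ[ℚ] F) → ℂ) → ℂ → ℂ) :
    central F L = ((∑ χ ∈ Pool.Agent.H541R3.ART.irrF (F ≃ₐ[ℚ] F), dg χ * analyticOrderNatAt (L χ) (1 / 2) : ℕ) : ℝ) := by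
  have h1 : central F L = ∑ χ ∈ Pool.Agent.H541R3.ART.irrF (F ≃ₐ[ℚ] F),
      (χ 1).re * analyticOrderNatAt (L χ) (1 / 2) :=
    finsum_mem_eq_finite_toFinset_sum _ (Pool.Agent.H541R3.ART.irr_finite (G := F ≃ₐ[ℚ] F))
  rw [h1]
  push_cast
  refine Finset.sum_congr rfl fun χ hχ => ?_
  rw [(dg_spec (Pool.Agent.H541R3.ART.mem_irrF.1 hχ)).1, Complex.natCast_re]

open Pool.Agent.U544.LI in
/-- **Main theorem.** -/
theorem result : ∀ (F : Type) [Field F] [NumberField F] [IsGalois ℚ F] (L : ((F ≃ₐ[ℚ] F) → ℂ) → ℂ → ℂ),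
    (∀ χ ∈ Irr (F ≃ₐ[ℚ] F), IsArtinL χ (L χ)) →
    Summable (fun p : Gamma F L => 4 * (p.1.1.1 1).re / (1 + ordinate p ^ 2)) ∧
    Summable (fun g : GammaSet F L => 4 * (deg F L g.1 : ℝ) / (1 + g.1 ^ 2)) ∧
    (GRH F L ↔ ∃ C, ∀ᶠ x in atTop, D F x ≤ C) ∧
    (GRH F L ↔
      LimsupLe (D F) (2 * central F L + ∑' p : Gamma F L, 4 * (p.1.1.1 1).re / (1 + ordinate p ^ 2)) ∧
      LimsupGe (D F) (2 * central F L + ∑' p : Gamma F L, 4 * (p.1.1.1 1).re / (1 + ordinate p ^ 2))) ∧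
    (GRH F L ∧ Function.Injective (ordinate (F := F) (L := L)) ∧ Statement2 F L ↔
      LimsupLe (D F) (A F L (sympl F L))) ∧
    ∃ N : Set ℝ, N.Countable ∧ ∀ c : ℝ, 1 < c → c ∉ N →
      (GRH F L ∧ Statement1 F L ∧ Statement2 F L ↔
        LimsupLe (D F) (A F L (sympl F L)) ∧
          LimsupGe (fun x => |D F x + 2 * D F (c * x)|) (B F L (sympl F L) c)) ∧
      (Sympl (F ≃ₐ[ℚ] F) = ∅ → ∀ M₀ : ℕ, (GRH F L ∧ Statement1 F L ∧ Statement2 F L ∧ Statement3 F L M₀ ↔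
        LimsupLe (D F) (A F L 0) ∧ LimsupGe (fun x => |D F x + 2 * D F (c * x)|) (B F L 0 c))) := by
  classical
  intro F _ _ _ L hL
  have hZ : ∀ χ ∈ Pool.Agent.H541R3.ART.Irr (F ≃ₐ[ℚ] F), IsArt F χ (L χ) := hL
  have hd : ∀ χ ∈ Pool.Agent.H541R3.ART.irrF (F ≃ₐ[ℚ] F), 0 < dg χ := fun χ hχ =>
    (dg_spec (Pool.Agent.H541R3.ART.mem_irrF.1 hχ)).2
  have hge : ∀ χ ∈ Pool.Agent.H541R3.ART.irrF (F ≃ₐ[ℚ] F), 0 ≤ (dg χ : ℝ) * (rest L χ : ℝ) :=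
    fun χ _ => by positivity
  have he0 : 0 ≤ central F L - sympl F L := by
    rw [parts_eq]
    exact Finset.sum_nonneg hge
  have he : central F L - sympl F L = 0 ↔ Statement2 F L := by
    rw [statement_iff hL, parts_eq, Finset.sum_eq_zero_iff_of_nonneg hge]
    constructor
    · intro h χ hχ
      have h1 := h χ (Pool.Agent.H541R3.ART.mem_irrF.2 hχ)
      have h2 : (dg χ : ℝ) ≠ 0 := by exact_mod_cast (hd χ (Pool.Agent.H541R3.ART.mem_irrF.2 hχ)).ne'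
      exact_mod_cast (mul_eq_zero.1 h1).resolve_left h2
    · intro h χ hχ
      rw [h χ (Pool.Agent.H541R3.ART.mem_irrF.1 hχ), Nat.cast_zero, mul_zero]
  obtain ⟨c1, c2, c3, c4, c5, N, hN, c6⟩ := Pool.Agent.U349.EV.art_ev F hZ (D := D F) (fun x hx => D_ideal F hx)
    (M := ∑ χ ∈ Pool.Agent.H541R3.ART.irrF (F ≃ₐ[ℚ] F), dg χ * analyticOrderNatAt (L χ) (1 / 2)) rfl
  have ha : ∀ p : Gamma F L, 4 * (p.1.1.1 1).re / (1 + ordinate p ^ 2) = 4 * (dg p.1.1.1 : ℝ) / (1 + p.1.1.2 ^ 2) := by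
    intro p
    rw [(dg_spec p.2.1).1, Complex.natCast_re]
    rfl
  rw [← central_eq] at c4 c5 c6
  have hA : ∀ e : ℝ, A F L e = 2 * e + ∑' g, Pool.Agent.U349.EV.rr
      (fun χ => χ ∈ Pool.Agent.H541R3.ART.Irr (F ≃ₐ[ℚ] F)) L dg g := by
    intro e
    unfold A
    congr 1
    refine tsum_congr fun g => ?_
    rw [deg_eq]
    rfl
  have hB : ∀ e c : ℝ, B F L e c = 6 * e + ∑' g : Pool.Agent.U349.EV.OrdP
      (fun χ => χ ∈ Pool.Agent.H541R3.ART.Irr (F ≃ₐ[ℚ] F)) L, Pool.Agent.U349.EV.rr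
      (fun χ => χ ∈ Pool.Agent.H541R3.ART.Irr (F ≃ₐ[ℚ] F)) L dg g * ‖1 + 2 * (c : ℂ) ^ (g.1 * Complex.I)‖ := by
    intro e c
    unfold B
    congr 1
    refine tsum_congr fun g => ?_
    rw [deg_eq]
    rfl
  have hfc : sympl F L ≤ central F L := by linarith
  have heq : central F L = sympl F L ↔ Statement2 F L := by
    rw [← he]
    exact sub_eq_zero.symm
  have key : ∀ c : ℝ, 1 < c → c ∉ N → (GRH F L ∧ Statement1 F L ∧ Statement2 F L ↔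
        LimsupLe (D F) (A F L (sympl F L)) ∧
          LimsupGe (fun x => |D F x + 2 * D F (c * x)|) (B F L (sympl F L) c)) := by
    intro c hc hcN
    rw [hA, hB]
    refine Iff.trans ?_ (c6 c hc hcN _ hfc)
    rw [heq]
    exact ⟨fun h => ⟨h.1, h.2.2, h.2.1⟩, fun h => ⟨h.1, h.2.2, h.2.1⟩⟩
  refine ⟨c1.congr fun p => (ha p).symm, c2.congr fun g => ?_, c3, ?_, ?_, N, hN, fun c hc hcN => ⟨key c hc hcN, ?_⟩⟩
  · rw [deg_eq]
    rfl
  · have e1 : ∑' p : Gamma F L, 4 * (p.1.1.1 1).re / (1 + ordinate p ^ 2) =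
        ∑' p : GamP (fun χ => χ ∈ Pool.Agent.H541R3.ART.Irr (F ≃ₐ[ℚ] F)) L,
          4 * (dg p.1.1.1 : ℝ) / (1 + p.1.1.2 ^ 2) := tsum_congr fun p => ha p
    rw [e1]
    exact c4
  · rw [hA]
    refine Iff.trans ?_ (c5 _ hfc)
    rw [heq]
    exact ⟨fun h => ⟨h.1, h.2.2, h.2.1⟩, fun h => ⟨h.1, h.2.2, h.2.1⟩⟩
  · intro hS M₀
    have h0 : sympl F L = 0 := by
      unfold sympl
      rw [hS]
      exact finsum_mem_empty
    have h3 : Statement3 F L M₀ := by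
      intro χ hχ
      rw [hS] at hχ
      exact absurd hχ (Set.notMem_empty _)
    have h4 := key c hc hcN
    rw [h0] at h4
    rw [← h4]
    exact ⟨fun h => ⟨h.1, h.2.1, h.2.2.1⟩, fun h => ⟨h.1, h.2.1, h.2.2, h3⟩⟩

end Pool.Agent.Results.MP_347b49_nt.ExtremeCentralValues
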