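import Pool.Agent.U544.LI.Mom5

/-!
# The moments of the prime ideals: Riemann hypothesis, central values and short relations between the ordinates

Let `F/ℚ` be a finite Galois extension with group `G` for which Artin's conjecture holds (all `L(s, χ, F/ℚ)`,
`χ ∈ Irr(G)`, are analytic for `s ≠ 1`; this is known if `G` is supersolvable), let

`D(x) = (8/3) √x - ∑_𝔞 Λ(𝔞) N𝔞^(-1/2) min(N𝔞/x, x/N𝔞)`,

the sum over the ideals of `F`, `Λ(𝔭^k) = log N𝔭` and `Λ(𝔞) = 0` for all other ideals, and consider the moments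
`M(c, m; X) = (1 / log X) ∫_1^X (c + D(x))^m dx/x`.

Let `Γ` be the multiset of the question, `b_γ = 2 χ(1) / (1 + γ²)` for a member `γ` which belongs to `χ`, let
`n_0 = ∑_χ χ(1) ord_{s=1/2} L(s, χ)` and let `n_s` be the part of this sum which belongs to the symplectic `χ`. A signed
`k`-tuple is a choice of `k` members `γ_1, …, γ_k` of `Γ` (repetitions allowed) and of `k` signs; its value is
`± γ_1 ± … ± γ_k`, its weight is `b_{γ_1} ⋯ b_{γ_k}`, and it cancels if every member of `Γ` occurs in it as often with the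
sign `+` as with the sign `-`. Let `A_k` be the sum of the weights of the signed `k`-tuples with value `0`, `V_k` the sum
of the weights of those which cancel, and `R_k` the statement that every signed `k`-tuple with value `0` cancels. Then:

* `V_k ≤ A_k`, with equality if and only if `R_k` holds, and statement 1 holds for `F` if and only if all the `R_k` hold;
* `n_s ≤ n_0`, with equality if and only if statement 2 holds for `F`;
* under the Riemann hypothesis for all the `L(s, χ)`, and with no assumption on the ordinates and the central values,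
  `M(c, m; X)` tends to `∑_{k ≤ m} binom(m, k) (c + 2 n_0)^(m-k) A_k`; in particular the mean value `M(0, 1; X)` of `D`
  tends to `2 n_0`;
* unconditionally, for `N ≥ 1`, `c ≥ 0`, the Riemann hypothesis holds for all the `L(s, χ)` if and only if `M(c, 2N; X)`
  is bounded, and the limes superior is at least `∑_{k ≤ 2N} binom(2N, k) (c + 2 n_0)^(2N-k) A_k`;
* unconditionally, for `N ≥ 1`, `c > 0`: the limes superior of `M(c, 2N; X)` is at most
  `∑_{k ≤ 2N} binom(2N, k) (c + 2 n_s)^(2N-k) V_k` if and only if the Riemann hypothesis holds for all the `L(s, χ)`,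
  statement 2 holds for `F`, and `R_k` holds for `k ≤ 2N`;
* unconditionally, for `c > 0`: the limes superior of the second moment `M(c, 2; X)` is at most
  `(c + 2 n_s)² + 2 ∑_γ b_γ²` if and only if the Riemann hypothesis holds for all the `L(s, χ)`, statement 2 holds for `F`,
  all the zeros off the real line are simple and no two of the functions have such a zero in common.

Proof: as for `ζ` (`MP_0ec205_nt/FiniteMoments`), with the Dedekind zeta function of `F`, whose logarithm has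
non-negative coefficients, and `ζ_F(s) = ∏_χ L(s, χ)^χ(1)`.
-/

set_option autoImplicit false

open Filter Topology NumberField IsDedekindDomain
open scoped Nat Pointwise

namespace Pool.Agent.Results.MP_347b49_nt.FiniteMoments

/-! ### the prime ideals -/

section field

variable (E : Type) [Field E] [NumberField E]

variable {E} in
open Classical in
/-- the von Mangoldt function of an ideal: `log N𝔭` for `𝔭^k`, `k ≥ 1`, and `0` otherwise -/
noncomputable def Lam (𝔞 : Ideal (𝓞 E)) : ℝ := if IsPrimePow 𝔞 then Real.log (Ideal.absNorm 𝔞.radical) else 0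

/-- `D_E(x) = (8/3) √x - ∑_𝔞 Λ(𝔞) N𝔞^(-1/2) min(N𝔞/x, x/N𝔞)` -/
noncomputable def D (x : ℝ) : ℝ :=
  8 / 3 * √x - ∑' 𝔞 : Ideal (𝓞 E), Lam 𝔞 / √(Ideal.absNorm 𝔞) * min (Ideal.absNorm 𝔞 / x) (x / Ideal.absNorm 𝔞)

/-- `(1 / log X) ∫_1^X (c + D(x))^m dx/x` -/
noncomputable def Moment (c : ℝ) (m : ℕ) (X : ℝ) : ℝ := (∫ x in (1:ℝ)..X, (c + D E x) ^ m / x) / Real.log X

end field

/-! ### Artin L-functions -/

/-- the irreducible complex characters of `G` -/
def Irr (G : Type) [Group G] : Set (G → ℂ) :=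
  {χ | ∃ (n : ℕ) (ρ : Representation ℂ G (Fin n → ℂ)), ρ.IsIrreducible ∧ χ = ρ.character}

section artin

variable (F : Type) [Field F] [NumberField F]

/-- the pairs `(P, g)`, where `P` is a prime of `F` over the prime `p` of `ℚ` and `g` induces `x ↦ x ^ (N(p)^n)`
modulo `P` -/
def frobSet (p : Ideal (𝓞 ℚ)) (n : ℕ) : Set (Ideal (𝓞 F) × (F ≃ₐ[ℚ] F)) :=
  {x | x.1.IsPrime ∧ x.1.LiesOver p ∧ ∀ y : 𝓞 F, x.2 • y - y ^ (Ideal.absNorm p ^ n) ∈ x.1}

variable {F} in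
/-- `χ(p^n)`: the mean of `χ` over the elements which induce `x ↦ x ^ (N(p)^n)` modulo a prime over `p` -/
noncomputable def frobMean (χ : (F ≃ₐ[ℚ] F) → ℂ) (p : Ideal (𝓞 ℚ)) (n : ℕ) : ℂ :=
  (∑ᶠ x ∈ frobSet F p n, χ x.2) / (frobSet F p n).ncard

variable {F} in
/-- the term `χ(p^n) / (n p^(ns))` of `log L(s, χ)` -/
noncomputable def logTerm (χ : (F ≃ₐ[ℚ] F) → ℂ) (s : ℂ) (x : HeightOneSpectrum (𝓞 ℚ) × ℕ+) : ℂ :=
  frobMean χ x.1.asIdeal x.2 / ((x.2 : ℕ) * (Ideal.absNorm x.1.asIdeal : ℂ) ^ (((x.2 : ℕ) : ℂ) * s))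

variable {F} in
/-- `Λ` is the Artin L-function `L(s, χ, F/ℚ) = exp ∑ χ(p^n) / (n p^(ns))`, and it is analytic for all `s ≠ 1` -/
def IsArtinL (χ : (F ≃ₐ[ℚ] F) → ℂ) (Λ : ℂ → ℂ) : Prop :=
  (∀ s : ℂ, s ≠ 1 → AnalyticAt ℂ Λ s) ∧
    ∀ s : ℂ, 1 < s.re → ∃ l : ℂ, HasSum (logTerm χ s) l ∧ Λ s = Complex.exp l

variable (L : ((F ≃ₐ[ℚ] F) → ℂ) → ℂ → ℂ)

/-- the multiset `Γ_F`: its members are the triples `(χ, γ, j)` with `χ ∈ Irr(G)`, `γ > 0` and
`j < ord_{s = 1/2 + iγ} L(s, χ)` -/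
def Gamma : Type :=
  {p : (((F ≃ₐ[ℚ] F) → ℂ) × ℝ) × ℕ // p.1.1 ∈ Irr (F ≃ₐ[ℚ] F) ∧ 0 < p.1.2 ∧
    p.2 < analyticOrderNatAt (L p.1.1) (1 / 2 + p.1.2 * Complex.I)}

variable {F L} in
/-- the ordinate `γ` -/
def ordinate (p : Gamma F L) : ℝ := p.1.1.2

variable {F L} in
/-- `b_γ = 2 χ(1) / (1 + γ²)` -/
noncomputable def b (p : Gamma F L) : ℝ := 2 * (p.1.1.1 1).re / (1 + p.1.1.2 ^ 2)

/-- `n_0 = ∑_χ χ(1) ord_{s=1/2} L(s, χ)` -/
noncomputable def central : ℝ := ∑ᶠ χ ∈ Irr (F ≃ₐ[ℚ] F), (χ 1).re * analyticOrderNatAt (L χ) (1 / 2)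

variable {F L} in
/-- the value `± γ_1 ± … ± γ_k` of a signed `k`-tuple -/
noncomputable def value {k : ℕ} (t : Fin k → Gamma F L × ℤˣ) : ℝ := ∑ j, (((t j).2 : ℤ) : ℝ) * ordinate (t j).1

open Classical in
variable {F L} in
/-- every member of `Γ_F` occurs as often with the sign `+` as with the sign `-` -/
def Cancels {k : ℕ} (t : Fin k → Gamma F L × ℤˣ) : Prop :=
  ∀ g : Gamma F L, ∑ j ∈ Finset.univ.filter (fun j => (t j).1 = g), ((t j).2 : ℤ) = 0

variable {F L} in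
/-- the weight `b_{γ_1} ⋯ b_{γ_k}` -/
noncomputable def weight {k : ℕ} (t : Fin k → Gamma F L × ℤˣ) : ℝ := ∏ j, b (t j).1

/-- `A_k`: the sum of the weights of the signed `k`-tuples with value `0` -/
noncomputable def A (k : ℕ) : ℝ := ∑' t : {t : Fin k → Gamma F L × ℤˣ // value t = 0}, weight t.1

/-- `V_k`: the sum of the weights of the signed `k`-tuples which cancel -/
noncomputable def V (k : ℕ) : ℝ := ∑' t : {t : Fin k → Gamma F L × ℤˣ // Cancels t}, weight t.1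

/-- `R_k`: there is no non-trivial relation `± γ_1 ± … ± γ_k = 0` -/
def NoRelation (k : ℕ) : Prop := ∀ t : Fin k → Gamma F L × ℤˣ, value t = 0 → Cancels t

/-- the Riemann hypothesis for all the `L(s, χ)`, `χ ∈ Irr(G)` -/
def GRH : Prop := ∀ χ ∈ Irr (F ≃ₐ[ℚ] F), ∀ ρ : ℂ, 0 < ρ.re → ρ.re < 1 → L χ ρ = 0 → ρ.re = 1 / 2

/-- the Frobenius-Schur indicator `(1/|G|) ∑_g χ(g²)` -/
noncomputable def indicator {G : Type} [Group G] (χ : G → ℂ) : ℂ := (∑ᶠ g : G, χ (g * g)) / Nat.card G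

/-- the symplectic irreducible characters -/
def Sympl (G : Type) [Group G] : Set (G → ℂ) := {χ | χ ∈ Irr G ∧ indicator χ = -1}

/-- `n_s = ∑ χ(1) ord_{s=1/2} L(s, χ)`, the sum over the symplectic `χ` -/
noncomputable def symplecticCentral : ℝ :=
  ∑ᶠ χ ∈ Sympl (F ≃ₐ[ℚ] F), (χ 1).re * analyticOrderNatAt (L χ) (1 / 2)

/-- statement 2: `L(1/2, χ) ≠ 0` for all `χ ≠ 1` in `Irr(G)` which are not symplectic -/
def Statement2 : Prop := ∀ χ ∈ Irr (F ≃ₐ[ℚ] F), χ ≠ (fun _ => 1) → χ ∉ Sympl (F ≃ₐ[ℚ] F) → L χ (1 / 2) ≠ 0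

/-- the zeros of the `L(s, χ)`, `χ ∈ Irr(G)`, with `0 < Re s < 1`, `Im s > 0` are simple, and no two of these
functions have such a zero in common -/
def SimpleDistinct : Prop := ∀ ρ : ℂ, 0 < ρ.re → ρ.re < 1 → 0 < ρ.im →
  (∀ χ ∈ Irr (F ≃ₐ[ℚ] F), L χ ρ = 0 → deriv (L χ) ρ ≠ 0) ∧
  ∀ χ ∈ Irr (F ≃ₐ[ℚ] F), ∀ ψ ∈ Irr (F ≃ₐ[ℚ] F), L χ ρ = 0 → L ψ ρ = 0 → χ = ψ

end artin

/-- `∑_{k ≤ m} binom(m, k) c^(m-k) M_k` -/
noncomputable def Binom (m : ℕ) (c : ℝ) (M : ℕ → ℝ) : ℝ :=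
  ∑ k ∈ Finset.range (m + 1), M k * c ^ (m - k) * (m.choose k : ℝ)

section sympl

variable {F : Type} [Field F] [NumberField F] [IsGalois ℚ F] {L : ((F ≃ₐ[ℚ] F) → ℂ) → ℂ → ℂ}

open Pool.Agent.U544.LI

lemma order_pos (hL : ∀ χ ∈ Irr (F ≃ₐ[ℚ] F), IsArtinL χ (L χ)) {χ : (F ≃ₐ[ℚ] F) → ℂ} (hχ : χ ∈ Irr (F ≃ₐ[ℚ] F)) :
    0 < analyticOrderNatAt (L χ) (1 / 2) ↔ L χ (1 / 2) = 0 := by
  have hZ : IsArt F χ (L χ) := hL χ hχ
  exact Z_ord_pos (S := {()}) (Z := fun _ => L χ) (χ := ()) (fun _ _ s hs => hZ.1 s hs) (fun _ _ => art_two hZ) (by simp)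
    (s := 1 / 2) (by norm_num)

omit [IsGalois ℚ F] in
lemma triv_not_sympl : (fun _ => 1 : (F ≃ₐ[ℚ] F) → ℂ) ∉ Sympl (F ≃ₐ[ℚ] F) := by
  rintro ⟨-, h⟩
  have hfin : Finite (F ≃ₐ[ℚ] F) := inferInstance
  have : Fintype (F ≃ₐ[ℚ] F) := Fintype.ofFinite _
  unfold indicator at h
  rw [finsum_eq_sum_of_fintype, Finset.sum_const, Finset.card_univ, nsmul_eq_mul, mul_one, Nat.card_eq_fintype_card,
    div_self (by exact_mod_cast Fintype.card_ne_zero)] at h
  norm_num at h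

omit [IsGalois ℚ F] in
open Classical in
lemma central_sub : central F L - symplecticCentral F L =
    ∑ χ ∈ Pool.Agent.H541R3.ART.irrF (F ≃ₐ[ℚ] F),
      (if χ ∈ Sympl (F ≃ₐ[ℚ] F) then 0 else (dg χ : ℝ) * analyticOrderNatAt (L χ) (1 / 2)) := by
  have h1 : central F L = ∑ χ ∈ Pool.Agent.H541R3.ART.irrF (F ≃ₐ[ℚ] F),
      (χ 1).re * analyticOrderNatAt (L χ) (1 / 2) :=
    finsum_mem_eq_finite_toFinset_sum _ (Pool.Agent.H541R3.ART.irr_finite (G := F ≃ₐ[ℚ] F))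
  have h2 : symplecticCentral F L = ∑ χ ∈ Pool.Agent.H541R3.ART.irrF (F ≃ₐ[ℚ] F),
      (if χ ∈ Sympl (F ≃ₐ[ℚ] F) then (χ 1).re * analyticOrderNatAt (L χ) (1 / 2) else 0) := by
    have h3 : symplecticCentral F L = ∑ᶠ χ ∈ Irr (F ≃ₐ[ℚ] F),
        (if χ ∈ Sympl (F ≃ₐ[ℚ] F) then (χ 1).re * analyticOrderNatAt (L χ) (1 / 2) else 0) := by
      unfold symplecticCentral
      refine finsum_congr fun χ => ?_
      by_cases hs : χ ∈ Sympl (F ≃ₐ[ℚ] F)
      · rw [finsum_eq_if, if_pos hs, finsum_eq_if, if_pos hs.1]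
      · rw [finsum_eq_if, if_neg hs, finsum_eq_if, ite_self]
    rw [h3]
    exact finsum_mem_eq_finite_toFinset_sum _ (Pool.Agent.H541R3.ART.irr_finite (G := F ≃ₐ[ℚ] F))
  rw [h1, h2, ← Finset.sum_sub_distrib]
  refine Finset.sum_congr rfl fun χ hχ => ?_
  rw [(dg_spec (Pool.Agent.H541R3.ART.mem_irrF.1 hχ)).1, Complex.natCast_re]
  split_ifs <;> ring

/-- the central orders and statement 2 -/
lemma statement2_iff (hL : ∀ χ ∈ Irr (F ≃ₐ[ℚ] F), IsArtinL χ (L χ)) :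
    symplecticCentral F L ≤ central F L ∧ (central F L = symplecticCentral F L ↔ Statement2 F L) := by
  classical
  have h0 : ∀ χ ∈ Pool.Agent.H541R3.ART.irrF (F ≃ₐ[ℚ] F),
      0 ≤ (if χ ∈ Sympl (F ≃ₐ[ℚ] F) then 0 else (dg χ : ℝ) * analyticOrderNatAt (L χ) (1 / 2)) := fun χ _ => by
    split_ifs
    · exact le_rfl
    · positivity
  have h1 := central_sub (F := F) (L := L)
  refine ⟨by have := Finset.sum_nonneg h0; linarith, ?_⟩
  rw [← sub_eq_zero, h1, Finset.sum_eq_zero_iff_of_nonneg h0]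
  constructor
  · intro h χ hχ hne hs h2
    have h3 := h χ (Pool.Agent.H541R3.ART.mem_irrF.2 hχ)
    rw [if_neg hs] at h3
    have h4 : (0:ℝ) < dg χ := by exact_mod_cast (dg_spec hχ).2
    have h5 : (0:ℝ) < analyticOrderNatAt (L χ) (1 / 2) := by exact_mod_cast (order_pos hL hχ).2 h2
    have := mul_pos h4 h5
    linarith
  · intro h χ hχ
    have hχ' := Pool.Agent.H541R3.ART.mem_irrF.1 hχ
    split_ifs with hs
    · rfl
    · have h2 : analyticOrderNatAt (L χ) (1 / 2) = 0 := by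
        by_contra hne
        have h6 := (order_pos hL hχ').1 (Nat.pos_of_ne_zero hne)
        by_cases h3 : χ = fun _ => 1
        · have hA : IsArt F χ (L χ) := hL χ hχ'
          have hA' : IsArt F (fun _ => 1) (L χ) := by
            rw [h3] at hA ⊢
            exact hA
          rw [art_triv hA' (by norm_num)] at h6
          exact zeta_half_ne h6
        · exact h χ hχ' h3 hs h6
      rw [h2, Nat.cast_zero, mul_zero]

end sympl

open Pool.Agent.U544.LI in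
/-- **Main theorem.** -/
theorem result : ∀ (F : Type) [Field F] [NumberField F] [IsGalois ℚ F] (L : ((F ≃ₐ[ℚ] F) → ℂ) → ℂ → ℂ),
    (∀ χ ∈ Irr (F ≃ₐ[ℚ] F), IsArtinL χ (L χ)) →
    (∀ k, Summable fun t : Fin k → Gamma F L × ℤˣ => weight t) ∧
    (∀ k, 0 ≤ V F L k ∧ V F L k ≤ A F L k ∧ (A F L k = V F L k ↔ NoRelation F L k)) ∧
    (LinearIndependent ℚ (ordinate : Gamma F L → ℝ) ↔ ∀ k, NoRelation F L k) ∧
    (symplecticCentral F L ≤ central F L ∧ (central F L = symplecticCentral F L ↔ Statement2 F L)) ∧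
    (GRH F L → ∀ (c : ℝ) (m : ℕ), Tendsto (Moment F c m) atTop (𝓝 (Binom m (c + 2 * central F L) (A F L)))) ∧
    (GRH F L → Tendsto (Moment F 0 1) atTop (𝓝 (2 * central F L))) ∧
    (∀ N : ℕ, 1 ≤ N →
      (∀ c : ℝ, 0 ≤ c →
        (GRH F L ↔ ∃ C, ∀ᶠ X in atTop, Moment F c (2 * N) X ≤ C) ∧
        (∀ ε : ℝ, 0 < ε → ∃ᶠ X in atTop,
          Binom (2 * N) (c + 2 * central F L) (A F L) - ε < Moment F c (2 * N) X)) ∧
      (∀ c : ℝ, 0 < c →
        (GRH F L ∧ Statement2 F L ∧ (∀ k ≤ 2 * N, NoRelation F L k) ↔ ∀ ε : ℝ, 0 < ε → ∀ᶠ X in atTop,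
          Moment F c (2 * N) X < Binom (2 * N) (c + 2 * symplecticCentral F L) (V F L) + ε))) ∧
    (GRH F L ∧ LinearIndependent ℚ (ordinate : Gamma F L → ℝ) ∧ Statement2 F L ↔
      ∀ N : ℕ, 1 ≤ N → ∀ ε : ℝ, 0 < ε → ∀ᶠ X in atTop,
        Moment F 1 (2 * N) X < Binom (2 * N) (1 + 2 * symplecticCentral F L) (V F L) + ε) ∧
    (Summable fun p : Gamma F L => b p ^ 2) ∧
    (∀ c : ℝ, 0 < c → (GRH F L ∧ Statement2 F L ∧ SimpleDistinct F L ↔ ∀ ε : ℝ, 0 < ε → ∀ᶠ X in atTop,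
      Moment F c 2 X < (c + 2 * symplecticCentral F L) ^ 2 + 2 * ∑' p : Gamma F L, b p ^ 2 + ε)) := by
  classical
  intro F _ _ _ L hL
  have hZ : ∀ χ ∈ Pool.Agent.H541R3.ART.Irr (F ≃ₐ[ℚ] F), IsArt F χ (L χ) := hL
  have hd : ∀ χ ∈ Pool.Agent.H541R3.ART.irrF (F ≃ₐ[ℚ] F), 0 < dg χ := fun χ hχ =>
    (dg_spec (Pool.Agent.H541R3.ART.mem_irrF.1 hχ)).2
  have hf : ∀ z : ℂ, z ≠ 1 / 2 → (fun z => ZD F (1 / 2 + z)) z =
      (z - 1 / 2) * ∏ χ ∈ Pool.Agent.H541R3.ART.irrF (F ≃ₐ[ℚ] F), L χ (1 / 2 + z) ^ dg χ := by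
    intro z hz
    have h1 : (1 / 2 + z : ℂ) ≠ 1 := fun h => hz (by linear_combination h)
    show ZD F (1 / 2 + z) = _
    rw [art_fact hZ h1]
    ring
  let e : Gamma F L ≃ Gam (Pool.Agent.H541R3.ART.irrF (F ≃ₐ[ℚ] F)) L :=
    { toFun := fun p => ⟨p.1, Pool.Agent.H541R3.ART.mem_irrF.2 p.2.1, p.2.2⟩
      invFun := fun p => ⟨p.1, Pool.Agent.H541R3.ART.mem_irrF.1 p.2.1, p.2.2⟩
      left_inv := fun p => rfl
      right_inv := fun p => rfl }
  have hbe : ∀ p : Gamma F L, b p = 2 * (dg (e p).1.1.1 : ℝ) / (1 + ordinate p ^ 2) := by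
    intro p
    unfold b
    rw [(dg_spec p.2.1).1, Complex.natCast_re]
    rfl
  have hZ1 : ∀ χ ∈ Pool.Agent.H541R3.ART.irrF (F ≃ₐ[ℚ] F), ∀ s : ℂ, s ≠ 1 → AnalyticAt ℂ (L χ) s := fun χ hχ s hs =>
    (hZ χ (Pool.Agent.H541R3.ART.mem_irrF.1 hχ)).1 s hs
  have hZ2 : ∀ χ ∈ Pool.Agent.H541R3.ART.irrF (F ≃ₐ[ℚ] F), L χ 2 ≠ 0 := fun χ hχ =>
    art_two (hZ χ (Pool.Agent.H541R3.ART.mem_irrF.1 hχ))
  set n0 : ℕ := ∑ χ ∈ Pool.Agent.H541R3.ART.irrF (F ≃ₐ[ℚ] F), dg χ * analyticOrderNatAt (L χ) (1 / 2) with hn0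
  have hcen : (n0 : ℝ) = central F L := by
    have h1 : central F L = ∑ χ ∈ Pool.Agent.H541R3.ART.irrF (F ≃ₐ[ℚ] F),
        (χ 1).re * analyticOrderNatAt (L χ) (1 / 2) :=
      finsum_mem_eq_finite_toFinset_sum _ (Pool.Agent.H541R3.ART.irr_finite (G := F ≃ₐ[ℚ] F))
    rw [h1, hn0]
    push_cast
    refine Finset.sum_congr rfl fun χ hχ => ?_
    rw [(dg_spec (Pool.Agent.H541R3.ART.mem_irrF.1 hχ)).1, Complex.natCast_re]
  obtain ⟨c0, c1, c2, c3⟩ := crit_mom_family (S := Pool.Agent.H541R3.ART.irrF (F ≃ₐ[ℚ] F)) (Z := L) (d := dg)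
    (ld_ded F) hd hZ1 hZ2 hf (D := D F) (fun x hx => D_ideal F hx) e (γ := ordinate) (b := b) (fun _ => rfl) hbe hn0
  have hG : (∀ χ ∈ Pool.Agent.H541R3.ART.irrF (F ≃ₐ[ℚ] F), RHs (L χ)) ↔ GRH F L :=
    ⟨fun h χ hχ => h χ (Pool.Agent.H541R3.ART.mem_irrF.2 hχ), fun h χ hχ => h χ (Pool.Agent.H541R3.ART.mem_irrF.1 hχ)⟩
  have hA : A F L = MM (b : Gamma F L → ℝ) ordinate := rfl
  have hcan : ∀ {k : ℕ} (t : Fin k → Gamma F L × ℤˣ), Cancels t ↔ fm t = 0 := fun t => (fm_zero_iff t).symm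
  have hV : V F L = VV (b : Gamma F L → ℝ) := by
    funext k
    unfold V VV
    exact (Equiv.subtypeEquivRight fun t => hcan t).tsum_eq
      (fun t : {t : Fin k → Gamma F L × ℤˣ // fm t = 0} => wp b t.1)
  have hNR : ∀ k, NoRelation F L k ↔ Ind (ordinate : Gamma F L → ℝ) k := fun k =>
    forall_congr' fun t => imp_congr_right fun _ => hcan t
  rw [hG, ← hA, hcen] at c2
  simp only [hG, ← hA, ← hV, hcen] at c3
  have hLI := linInd_Ind (ordinate : Gamma F L → ℝ)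
  have hbp : ∀ p : Gamma F L, 0 < b p := fun p => by
    have h1 : (0:ℝ) < dg p.1.1.1 := by exact_mod_cast (dg_spec p.2.1).2
    rw [hbe]
    show 0 < 2 * (dg p.1.1.1 : ℝ) / (1 + ordinate p ^ 2)
    positivity
  have hbs : Summable (b : Gamma F L → ℝ) := by
    have h1 := c0 1
    let e1 : Gamma F L → (Fin 1 → Gamma F L × ℤˣ) := fun p _ => (p, 1)
    have he1 : Function.Injective e1 := fun p p' hp => congrArg Prod.fst (congrFun hp 0)
    refine (h1.comp_injective he1).congr fun p => ?_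
    simp [e1, wp]
  obtain ⟨v1, v2⟩ := VV_two hbp hbs
  have hcn : 0 ≤ central F L := by rw [← hcen]; exact Nat.cast_nonneg _
  have keyg : ∀ s : ℝ, 0 ≤ s → s ≤ central F L → ∀ N : ℕ, 1 ≤ N → ∀ c : ℝ, 0 < c →
      (GRH F L ∧ central F L = s ∧ (∀ k ≤ 2 * N, NoRelation F L k) ↔ ∀ ε : ℝ, 0 < ε → ∀ᶠ X in atTop,
        Moment F c (2 * N) X < Binom (2 * N) (c + 2 * s) (V F L) + ε) := by
    intro s hs0 hs1 N hN c hc
    obtain ⟨-, -, d3, -⟩ := c3 N hN c hc.le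
    have := d3 (c + 2 * s) (by positivity) (by linarith)
    refine Iff.trans (and_congr_right fun _ => ?_) this
    constructor
    · intro h1
      exact ⟨by rw [h1.1], fun k hk => (hNR k).1 (h1.2 k hk)⟩
    · intro h1
      exact ⟨by linarith [h1.1], fun k hk => (hNR k).2 (h1.2 k hk)⟩
  have hinj : Ind (ordinate : Gamma F L → ℝ) 2 ↔ Function.Injective (ordinate : Gamma F L → ℝ) :=
    Ind_two_iff (fun p : Gamma F L => show 0 < ordinate p from p.2.2.1)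
  have hInd1 : Ind (ordinate : Gamma F L → ℝ) 1 := by
    intro t ht
    exfalso
    unfold fr at ht
    rw [Fin.sum_univ_one] at ht
    have h1 : 0 < ordinate (t 0).1 := (t 0).1.2.2.1
    rcases Int.units_eq_one_or (t 0).2 with h3 | h3 <;> rw [h3] at ht <;> simp at ht <;> linarith
  have hInd0 : Ind (ordinate : Gamma F L → ℝ) 0 := by
    intro t ht
    simp [fm]
  have hR2 : (∀ k ≤ 2 * 1, NoRelation F L k) ↔ Function.Injective (ordinate : Gamma F L → ℝ) := by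
    rw [← hinj]
    simp only [hNR]
    constructor
    · intro h1
      exact h1 2 le_rfl
    · intro h1 k hk
      interval_cases k
      · exact hInd0
      · exact hInd1
      · exact h1
  have hV1 : V F L 1 = 0 := by
    rw [hV]
    have h1 := (c1 1).2.2.2 hInd1
    unfold VV
    have : IsEmpty {t : Fin 1 → Gamma F L × ℤˣ // fm t = 0} := by
      refine ⟨fun t => ?_⟩
      have h2 : fr (ordinate : Gamma F L → ℝ) t.1 = 0 := by rw [← val_fm, t.2, val_zero]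
      unfold fr at h2
      rw [Fin.sum_univ_one] at h2
      have h1 : 0 < ordinate (t.1 0).1 := (t.1 0).1.2.2.1
      rcases Int.units_eq_one_or (t.1 0).2 with h3 | h3 <;> rw [h3] at h2 <;> simp at h2 <;> linarith
    exact tsum_empty
  have hB2 : ∀ c : ℝ, Binom (2 * 1) c (V F L) = c ^ 2 + 2 * ∑' p : Gamma F L, b p ^ 2 := by
    intro c
    unfold Binom
    rw [Finset.sum_range_succ, Finset.sum_range_succ, Finset.sum_range_succ, Finset.sum_range_zero]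
    have h0 : V F L 0 = 1 := by rw [hV, VV_zero]
    have h2 : V F L 2 = 2 * ∑' p : Gamma F L, b p ^ 2 := by rw [hV, v2]
    norm_num [h0, hV1, h2]
  obtain ⟨s1, s2⟩ := statement2_iff hL
  have hs0 : 0 ≤ symplecticCentral F L := by
    unfold symplecticCentral
    refine finsum_nonneg fun χ => finsum_nonneg fun hχ => ?_
    rw [(dg_spec hχ.1).1, Complex.natCast_re]
    positivity
  have key : ∀ N : ℕ, 1 ≤ N → ∀ c : ℝ, 0 < c →
      (GRH F L ∧ Statement2 F L ∧ (∀ k ≤ 2 * N, NoRelation F L k) ↔ ∀ ε : ℝ, 0 < ε → ∀ᶠ X in atTop,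
        Moment F c (2 * N) X < Binom (2 * N) (c + 2 * symplecticCentral F L) (V F L) + ε) := by
    intro N hN c hc
    rw [← keyg _ hs0 s1 N hN c hc, s2]
  have hA1 : A F L 1 = 0 := by
    have h1 := (c1 1).2.2.2 hInd1
    rw [hA, h1, ← hV, hV1]
  refine ⟨c0, fun k => ?_, ?_, ⟨s1, s2⟩, c2, fun hGr => ?_, fun N hN => ⟨fun c hc => ?_, key N hN⟩, ?_, v1,
    fun c hc => ?_⟩
  · rw [hNR, hV, hA]
    exact c1 k
  · simp only [hNR]
    exact hLI
  · have h1 := c2 hGr 0 1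
    have h2 : Binom 1 (0 + 2 * central F L) (A F L) = 2 * central F L := by
      unfold Binom
      rw [Finset.sum_range_succ, Finset.sum_range_succ, Finset.sum_range_zero]
      have h0 : A F L 0 = 1 := by rw [hA, MM_zero]
      norm_num [h0, hA1]
    rw [← h2]
    exact h1
  · obtain ⟨d1, d2, -, -⟩ := c3 N hN c hc
    exact ⟨d1, d2⟩
  · constructor
    · rintro ⟨h1, h3, h4⟩ N hN
      refine (key N hN 1 one_pos).1 ⟨h1, h4, fun k _ => ?_⟩
      rw [hNR]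
      exact hLI.1 h3 k
    · intro h1
      obtain ⟨h3, h4, -⟩ := (key 1 le_rfl 1 one_pos).2 (h1 1 le_rfl)
      refine ⟨h3, hLI.2 fun k => ?_, h4⟩
      rw [← hNR]
      exact ((key (k + 1) (by omega) 1 one_pos).2 (h1 (k + 1) (by omega))).2.2 k (by omega)
  · have h1 := key 1 le_rfl c hc
    rw [hB2] at h1
    refine Iff.trans (and_congr_right fun hGq => and_congr_right fun _ => ?_) h1
    rw [hR2]
    have h2 := inj_family hZ1 hZ2 (hG.2 hGq)
    have h3 : SimpleDistinct F L ↔ Function.Injective (fun p : Gam (Pool.Agent.H541R3.ART.irrF (F ≃ₐ[ℚ] F)) L => p.1.1.2) := by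
      rw [← h2]
      unfold SimpleDistinct
      refine forall_congr' fun ρ => forall_congr' fun _ => forall_congr' fun _ => forall_congr' fun _ =>
        and_congr ?_ ?_
      · exact ⟨fun h χ hχ => h χ (Pool.Agent.H541R3.ART.mem_irrF.1 hχ), fun h χ hχ =>
          h χ (Pool.Agent.H541R3.ART.mem_irrF.2 hχ)⟩
      · exact ⟨fun h χ hχ ψ hψ => h χ (Pool.Agent.H541R3.ART.mem_irrF.1 hχ) ψ (Pool.Agent.H541R3.ART.mem_irrF.1 hψ),
          fun h χ hχ ψ hψ => h χ (Pool.Agent.H541R3.ART.mem_irrF.2 hχ) ψ (Pool.Agent.H541R3.ART.mem_irrF.2 hψ)⟩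
    rw [h3]
    constructor
    · intro h4 p p' hpp
      exact e.injective (h4 hpp)
    · intro h4 p p' hpp
      exact e.symm.injective (h4 hpp)

end Pool.Agent.Results.MP_347b49_nt.FiniteMoments
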